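import Pool.Agent.K7.H1.AR.Main
set_option autoImplicit false

/-!
Unramified classes with linearly independent regulators in the Milnor K-theory (of degree
`dim X + 1`) of fibrations over the affine space given by arbitrary arrangements of hyperplanes over
arbitrary number fields.  The varieties are
`(z + S_0 + 1/(z P_0)) (S_1 + 1/P_1) ⋯ (S_B + 1/P_B) = λ g ∏_e L_e ^ (w_e + 1)`,
where the variables `y_1, ..., y_s` are distributed over the blocks `0, ..., B`, and `S_k` is the sum
and `P_k` a monomial `∏ y_i ^ (v_i + 1)` of the variables of the block `k`; the `L_e` are affine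
forms in `x_0, ..., x_d` over a number field `K`, which define different hyperplanes and are
arbitrary otherwise (no condition of general position or unimodularity), and `g` is an arbitrary
polynomial in these variables without zeros at the vertices of the arrangement.

Examples: for `s = 0` these are the double covers `z + 1/z = λ g ∏_e L_e ^ (w_e + 1)`; for `B = 0`
and `v_i = 0` they are fibrations in Calabi-Yau varieties of the family
`z + y_1 + ... + y_s + 1/(z y_1 ⋯ y_s) = Φ(x)`, mirror to the Dwork family; for `B = 1`, `s = 1`
they are the elliptic fibrations `(z + 1/z) (y + 1/y) = Φ(x)`.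
-/

namespace Pool.Agent.Results.MP_4a177b_nt.ArrangementFibrations

open Pool.Agent.K7.H1.AR

open Pool.Agent.TH826.MK (KQ symb Unramified Torus)

open Pool.Agent.TH826.GA (cm vtx)

open Pool.Agent.TH577.UA (Ix)

/-- Let `σ` be a complex embedding of the number field `K`, let `L_e = ∑_j c_{e,j} x_j - a_e`,
`0 ≤ e ≤ m`, be affine forms in `d + 1` variables over `K`, no one of which is a multiple of another
one, and whose linear parts have rank `d + 1`. Let `w_e ≥ 0`, and let `g` be a polynomial which
does not vanish at the vertices of the arrangement (the common zeros of `d + 1` forms with linearly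
independent linear parts). Let `y_1, ..., y_s` be variables, `b_i ∈ {0, ..., B}` and `v_i ≥ 0`.

There are positive integers `D` which clear the denominators of finitely many numbers determined by
the arrangement and by `g` (the structure `Clr`), and there is a constant `C`, such that for all
these `D`, all algebraic integers `μ` of `K` and `λ = D ^ N μ` (with the explicit exponent
`N = expo m g w`), `|σ λ| ≥ C`, the following holds for the coordinate ring `A = F.FRing lam` of the
part, where the `L_e`, `g`, `z` and the `y_i` do not vanish, of the variety
`(z + S_0 + 1/(z P_0)) ∏_{k = 1}^B (S_k + 1/P_k) = λ g ∏_e L_e ^ (w_e + 1)` of dimension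
`s + d + 1`, with `S_k = ∑_{b_i = k} y_i` and `P_k = ∏_{b_i = k} y_i ^ (v_i + 1)`.

The ring `A` is a domain. For all `T = (T_0, ..., T_d)` with linearly independent linear parts the
symbol `{z, y_1, ..., y_s, u_0, ..., u_d}`, `u_i = κ_i L_{T_i} / L_{h_i}`, where `h_i` is the largest
index such that the linear parts of the forms `T` with `T_i` replaced by `h_i` are linearly
independent and `κ_i` is the quotient of the determinants of these linear parts and of those of `T`,
has unramified images in the Milnor K-theory of all fields `L` with a homomorphism `A → L`. There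
are tori `Γ_T` of dimension `s + d + 1` in the smooth part of the complex points (over `σ`), such
that the determinant of the regulators of the symbols of the `T'` on the tori `Γ_T` does not vanish;
`T` and `T'` run through the set `Ix` of all `T_0 < ... < T_d` with linearly independent linear
parts such that every `T_i` can be replaced by a later form (with linearly independent linear parts)
and every other form which vanishes at the vertex of `T` can replace a later form `T_i` (the bases
without broken circuits and of internal activity zero).

If the arrangement is in general position, that is if any `d + 1` of the linear parts are linearly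
independent and no `d + 2` of the forms have a common zero, the number of elements of `Ix` is
`binom(m, d + 1)`. -/
theorem result.{u, v} {K : Type u} [Field K] [NumberField K] {d m s B : ℕ} (σ : K →+* ℂ)
    (F : Fib K d m s B)
    (hD : ∀ e e', e ≠ e' → ∀ κ : K, ¬ ((∀ j, F.c e j = κ * F.c e' j) ∧ F.a e = κ * F.a e'))
    (hR : ∃ T : Fin (d + 1) → Fin (m + 1), (cm F.c T).det ≠ 0)
    (hv : ∀ T : Fin (d + 1) → Fin (m + 1), (cm F.c T).det ≠ 0 →
      MvPolynomial.eval (vtx F.c F.a T) F.g ≠ 0) :
    ((∃ D : ℕ, Clr F.g F.c F.a D) ∧ ∃ C : ℝ, ∀ D : ℕ, Clr F.g F.c F.a D →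
      ∀ mu lam : K, IsIntegral ℤ mu → lam = (D : K) ^ expo m F.g F.w * mu → C ≤ ‖σ lam‖ →
      IsDomain (F.FRing lam) ∧
      (∀ (L : Type v) [Field L] (f : F.FRing lam →+* L) (T : Fin (d + 1) → Fin (m + 1)),
        (cm F.c T).det ≠ 0 → KQ.map (s + (d + 1) + 1) f (symb (F.ent lam T)) ∈
          Unramified L (s + (d + 1) + 1)) ∧
      ∃ Γ : Ix F.c F.a → Torus (F.FRing lam) (s + (d + 1)),
        (∀ T, F.Over lam σ (Γ T)) ∧
        (Matrix.of fun T T' : Ix F.c F.a =>
          (Γ T).reg (symb (F.ent lam T'.1))).det ≠ 0) ∧
    ((∀ T : Fin (d + 1) → Fin (m + 1), Function.Injective T → (cm F.c T).det ≠ 0 ∧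
      ∀ e, (∀ j, T j ≠ e) → ∑ j, F.c e j * vtx F.c F.a T j ≠ F.a e) →
      Nat.card (Ix F.c F.a) = m.choose (d + 1)) :=
  ⟨main σ F hD hR hv, fun h => card_Ix (fun T hT => (h T hT).1) fun T hT => (h T hT).2⟩

end Pool.Agent.Results.MP_4a177b_nt.ArrangementFibrations
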