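import Pool.Agent.K7.H1.CF.Dom
set_option autoImplicit false

/-!
Symbols of circuits on fibre products of families of Calabi-Yau varieties.  Let `l_1, ..., l_m` be
linear forms on the affine space of dimension `n` over a number field `K`, let `F_1, ..., F_m` be
monic polynomials in one variable with integral coefficients and `v_{e,j} ≥ 1`, `1 ≤ e ≤ m`,
`1 ≤ j ≤ k`, integers.  On the variety
`z_e + y_{e,1} + ... + y_{e,k} + 1/(z_e y_{e,1} ^ v_{e,1} ... y_{e,k} ^ v_{e,k}) = F_e(l_e(t))`,
`e = 1, ..., m`, of dimension `n + m k`, each circuit, that is each set of `r + 1` linear forms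
with a relation all of whose coefficients are roots of unity, defines the symbol
`{z_e, y_{e,1}, ..., y_{e,k} : e in the circuit}` of the Milnor K-group of degree
`(r + 1) (k + 1)`.  It is unramified at all discrete valuations, and the regulators of the symbols
of all these circuits are linearly independent if the arrangement is separated.  There is no large
parameter, and the polynomials are arbitrary otherwise.

For `v_{e,j} = 1` the variety is the fibre product over the affine space of pull backs of the
pencil `z + y_1 + ... + y_k + 1/(z y_1 ... y_k) = s` of Calabi-Yau varieties of dimension `k`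
(pairs of points, elliptic curves, K3 surfaces, ...), which is mirror to the Dwork pencil.

Examples: for `n = r = 1` and `l_e = t` one has the classes `{z_e, y_e, z_f, y_f}` in `K_4` of the
fibre products `z_e + y_e + 1/(z_e y_e) = F_e(t)`, `e = 1, ..., m`, of elliptic surfaces over the
line; for `m = 2` and `F_e = t - c_e` these are Calabi-Yau threefolds (Schoen), and if the `c_e` are
integers with mutual distances at least `7` (for instance), the `binom(m, 2)` classes are linearly
independent on the fibre product of dimension `m + 1`.  For a graph with the vertices `0, ..., n`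
and the linear forms `t_a - t_b` (`t_0 = 0`) of its edges, the cycles are circuits.
-/

namespace Pool.Agent.Results.MP_4a177b_nt.CircuitFibrations

open Pool.Agent.K7.H1.CF

open Pool.Agent.TH826.MK (KQ Unramified)

/-- Let `σ` be a complex embedding of the number field `K`, let `l_1, ..., l_m` be linear forms on
the affine space of dimension `n` over `K` and `F_1, ..., F_m` monic polynomials of positive degree
with coefficients in the ring of integers of `K` (`hA`), and let `v_{e,j} = w_{e,j} + 1 ≥ 1`,
`1 ≤ e ≤ m`, `1 ≤ j ≤ k`. Let `D_1, ..., D_N` be different circuits with `r + 1` elements (`hD`,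
`hdist`): sets of `r + 1` of the linear forms with a relation `∑ s_i l_i = 0` with roots of unity
`s_i`. Suppose that each circuit `D_i` without its first element is contained in a box that does
not contain the first element (`hB`), and that each index `e` belongs to a box (`hcov`);
`P_1, ..., P_n` form a box if the linear forms `l_e`, `e = P_1, ..., P_n`, are linearly
independent, the complex roots `b_{e,j}` of `F_e` have mutual distances at least `2 k + 5` for
these `e`, and if `l_e(t)` has distance less than `k + 5/2` from `b_{e,0}` for these `e`, then
`|F_f(l_f(t))| > k + 2` for all the other `f`. Then the coordinate ring of the variety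
`z_e + y_{e,1} + ... + y_{e,k} + 1/(z_e y_{e,1} ^ v_{e,1} ... y_{e,k} ^ v_{e,k}) = F_e(l_e(t))`,
`e = 1, ..., m`, of dimension `n + m k` is a domain, the symbols
`{z_e, y_{e,1}, ..., y_{e,k} : e ∈ D_i}` in its Milnor K-group of degree
`(r + 1) (k + 1) = (r + 1) k + r + 1` are unramified at all discrete valuations of the function
field, and no nontrivial real linear combination of the regulators of these `N` symbols vanishes on
all tori (of dimension `(r + 1) (k + 1) - 1` and class `C²`) in the smooth part of the complex
points over `σ`. -/
theorem result.{u, v} (n m k r N : ℕ) (K : Type u) [Field K] [NumberField K] (σ : K →+* ℂ)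
    (A : Arr K n m k) (hA : A.Integral) (D : Fin N → Fin (r + 1) → Fin m)
    (hD : ∀ i, A.Circuit (D i)) (hdist : ∀ i i', Set.range (D i) = Set.range (D i') → i = i')
    (hB : ∀ i, ∃ P : Fin n → Fin m, A.Box σ P ∧ (∀ j, P j ≠ D i 0) ∧
      ∀ b : Fin r, ∃ j, P j = D i b.succ)
    (hcov : ∀ e, ∃ (P : Fin n → Fin m) (j : Fin n), A.Box σ P ∧ P j = e) :
    IsDomain A.CRing ∧
      (∀ (L : Type v) [Field L] [Algebra A.CRing L] [IsFractionRing A.CRing L] (i : Fin N),
        KQ.map ((r + 1) * k + r + 1) (algebraMap A.CRing L) (A.sym (D i)) ∈
          Unramified L ((r + 1) * k + r + 1)) ∧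
      A.Indep σ D :=
  main n m k r N K σ A hA D hD hdist hB hcov

end Pool.Agent.Results.MP_4a177b_nt.CircuitFibrations
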