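import Pool.Agent.K7.H1.TO.Main
set_option autoImplicit false

/-!
Unramified classes with linearly independent regulators in the Milnor K-theory (of degree
`dim X + 1`) of hypersurfaces in the torus `G_m^(d+1)` over number fields, given by arrangements of
subtori: the hypersurfaces

`λ g ∏_e ∏_{i ≤ r_e} (x^{α_e} - ζ_{e,i}) ^ (w_{e,i} + 1) = x^γ`

where the `x^{α_e}` are arbitrary characters (different from `1`), the `ζ_{e,i}` are roots of unity,
`g ≠ 0` is an arbitrary polynomial with integral coefficients, and `λ` is a large algebraic integer.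
-/

namespace Pool.Agent.Results.MP_4a177b_nt.ToricArrangements

open Pool.Agent.TH826.MK (KQ symb Unramified Torus)

open Pool.Agent.K7.H1.TO

open Pool.Agent.K7.H1.TO.Arr (Ix)

open Classical in
/-- Let `σ` be a complex embedding of the number field `K`, let `α_e ∈ ℤ^(d+1)`, `e < m`, be
different from `0`, for each `e` let `ζ_{e,0}, ..., ζ_{e,r_e}` be different roots of unity in `K`,
and `w_{e,i} ≥ 0`; let `γ ∈ ℤ^(d+1)` and let `g ≠ 0` be a polynomial in `x_0, ..., x_d` whose
coefficients are algebraic integers of `K`.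

There is a constant `C` such that for all algebraic integers `λ` of `K` with `|σ λ| ≥ C` the following
holds for the coordinate ring `A = F.TRing lam` of the hypersurface
`λ g ∏_e ∏_i (x^{α_e} - ζ_{e,i}) ^ (w_{e,i} + 1) = x^γ` of dimension `d` in the torus (all
`x_j ≠ 0`).

For all `T = (T_0, ..., T_d)` with linearly independent characters `α_{T_l}`, and `0 ≤ k_l < r_{T_l}`,
the symbol `{u_0, ..., u_d}`, `u_l = (x^α - ζ_{e,k_l+1}) / (x^α - ζ_{e,0})`, `e = T_l`, `α = α_e`, has
unramified images in the Milnor K-theory of all fields `L` with a homomorphism `A → L` (for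
example of the function fields of the components of the hypersurface).

There are tori `Γ_s` of dimension `d` in the smooth part of the complex points (over `σ`) of the
hypersurface (some logarithmic derivative `x_j ∂/∂x_j` of the equation does not vanish), such that
the determinant of the regulators of the symbols of the `s'` on the tori `Γ_s` does not vanish, where
`s` and `s'` run through the set `Ix` of all `(T, k)` with `T_0 < ... < T_d` and linearly
independent characters such that there is a common point `P` in `(ℂ^*)^(d+1)` of the subtori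
`x^{α_e} = ζ_{e,k_l+1}`, `e = T_l`, with the property that every other `e`, for which some of the
subtori `x^{α_e} = ζ_{e,i}` contains `P`, can replace some `T_l > e` in the independent system.

If no point of the torus lies on subtori of the arrangement for more than `d + 1` of the `e`, the
number of these classes is `∑_T ∏_l r_{T_l}`, where `T` runs through all the linearly independent
systems `T_0 < ... < T_d`. -/
theorem result.{u, v} {K : Type u} [Field K] [NumberField K] {d m : ℕ} (σ : K →+* ℂ)
    (F : Arr K d m) (hα : ∀ e, F.al e ≠ 0) (hz : ∀ e i, ∃ n : ℕ, 0 < n ∧ F.z e i ^ n = 1)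
    (hinj : ∀ e, Function.Injective (F.z e)) (hg : F.g ≠ 0)
    (hgi : ∀ k, IsIntegral ℤ (F.g.coeff k)) :
    (∃ C : ℝ, ∀ lam : K, IsIntegral ℤ lam → C ≤ ‖σ lam‖ →
      (∀ (L : Type v) [Field L] (f : F.TRing lam →+* L) (T : Fin (d + 1) → Fin m)
        (k : ∀ l, Fin (F.r (T l))), (F.mat T).det ≠ 0 →
          KQ.map (d + 1) f (symb (F.ent lam T k)) ∈ Unramified L (d + 1)) ∧
      ∃ Γ : Ix σ F → Torus (F.TRing lam) d,
        (∀ s, (∀ θ x, (Γ s).e θ (F.tcst lam x) = σ x) ∧
          ∀ θ, ∃ j, (Γ s).e θ (F.tpol lam (dlog j (F.Phi lam))) ≠ 0) ∧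
        (Matrix.of fun s s' : Ix σ F =>
          (Γ s).reg (symb (F.ent lam s'.1.1 s'.1.2))).det ≠ 0) ∧
    ((∀ P : Fin (d + 1) → ℂ, (∀ j, P j ≠ 0) →
      {e | ∃ i, ∏ j, P j ^ F.al e j = σ (F.z e i)}.ncard ≤ d + 1) →
      Nat.card (Ix σ F) = ∑ T : Fin (d + 1) → Fin m with StrictMono T ∧ (F.mat T).det ≠ 0,
        ∏ l, F.r (T l)) := by
  have hz0 : ∀ e i, F.z e i ≠ 0 := by
    intro e i h
    obtain ⟨n, hn, h1⟩ := hz e i
    rw [h, zero_pow hn.ne'] at h1
    exact zero_ne_one h1
  refine ⟨?_, Arr.card_Ix σ hz0⟩
  obtain ⟨C, hC⟩ := Arr.exists_tori (F := F) σ hα hz0 hinj hg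
  exact ⟨C, fun lam hlam hl => ⟨fun L _ f T k hT =>
    Arr.symb_mem_unramified f hz hgi hlam hT k, hC lam hl⟩⟩

end Pool.Agent.Results.MP_4a177b_nt.ToricArrangements
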