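import Pool.Agent.K7.H1.TT.Main
import Pool.Agent.K7.H1.TT.Unr
import Pool.Agent.K7.H1.TT.Adm
set_option autoImplicit false

/-!
Beilinson's regulator for `K_j^(j)`, `j = dim X + 1`: fibrations in tempered toric hypersurfaces over
the complements of arrangements of subtori,

`λ g(x) ∏_e ∏_i (x^{α_e} - ζ_{e,i}) ^ (w_{e,i} + 1) = x^γ y^{-δ} ψ(y) ≠ 0`

in the product of the tori with the coordinates `x_0, ..., x_d` and `y_0, ..., y_q`. Here the
`x^{α_e}` are arbitrary characters different from `1`, the `ζ_{e,i}` are roots of unity, `g` is any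
polynomial with integral coefficients, `ψ` is tempered with `δ` in the interior of its Newton
polytope, and `λ` is a large algebraic integer.  For example, for
`y^{-δ} ψ(y) = y_0 + ... + y_q + 1 / (y_0 ... y_q)` the fibres over the `x` are Calabi-Yau
hypersurfaces `y_0 + ... + y_q + 1 / (y_0 ... y_q) = c` (elliptic curves for `q = 1`).
-/

namespace Pool.Agent.Results.MP_4a177b_nt.ToricFibrations

open Pool.Agent.TH826.MK (KQ symb Unramified Torus)

open Pool.Agent.K7.H1.TO

open Pool.Agent.K7.H1.TO.Arr (Ix)

open Pool.Agent.K7.H1.PP (PRing px pcst)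

open Pool.Agent.K7.H1.TT

/-- The symbols `{u_0, ..., u_d, y_0, ..., y_q}` have unramified images in the Milnor K-groups of all
fields `L` with a homomorphism from the coordinate ring to `L`. -/
def UnramifiedSymbols.{u, v} {K : Type u} [Field K] {d q m : ℕ} (F : Arr K d m)
    (psi : MvPolynomial (Fin (q + 1)) K) (δ : Fin (q + 1) → ℤ) (lam : K) : Prop :=
  ∀ (L : Type v) [Field L] (f : PRing F (fib psi δ) lam →+* L) (T : Fin (d + 1) → Fin m)
    (k : ∀ l, Fin (F.r (T l))), (F.mat T).det ≠ 0 →
      KQ.map (d + 1 + (q + 1)) f (symb (fent F psi δ lam T k)) ∈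
        Unramified L (d + 1 + (q + 1))

/-- The torus lies in the complex points over `σ` at which the differential of the function on the
left side of the equation does not vanish. -/
def Over {K : Type*} [Field K] {d q m : ℕ} {F : Arr K d m}
    {psi : MvPolynomial (Fin (q + 1)) K} {δ : Fin (q + 1) → ℤ} {lam : K} (σ : K →+* ℂ)
    (Γ : Torus (PRing F (fib psi δ) lam) (d + 1 + q)) : Prop :=
  (∀ θ x, Γ.e θ (pcst F (fib psi δ) lam x) = σ x) ∧
    ∀ θ, ∃ j, Γ.e θ (px F (fib psi δ) lam (dlog j (F.Phi 1))) ≠ 0

/-- There are tori of dimension `d + q + 1`, one for each element of `Ix σ F`, such that the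
determinant of the regulators of the symbols of the elements of `Ix σ F` on these tori does not
vanish. -/
def IndependentRegulators {K : Type*} [Field K] {d q m : ℕ} (σ : K →+* ℂ) (F : Arr K d m)
    (psi : MvPolynomial (Fin (q + 1)) K) (δ : Fin (q + 1) → ℤ) (lam : K) : Prop :=
  ∃ Γ : Ix σ F → Torus (PRing F (fib psi δ) lam) (d + 1 + q), (∀ t, Over σ (Γ t)) ∧
    (Matrix.of fun t o : Ix σ F =>
      (Γ t).reg (symb (fent F psi δ lam o.1.1 o.1.2))).det ≠ 0

/-- Let `σ` be a complex embedding of the number field `K`. Let `α_e ∈ ℤ^(d+1)`, `e < m`, be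
different from `0`, for each `e` let `ζ_{e,0}, ..., ζ_{e,r_e}` be different roots of unity in `K`,
and `w_{e,i} ≥ 0`, `γ ∈ ℤ^(d+1)`, and let `g ≠ 0` be a polynomial in `x_0, ..., x_d` whose
coefficients are algebraic integers of `K`.  Put
`Φ = x^{-γ} g(x) ∏_e ∏_i (x^{α_e} - ζ_{e,i}) ^ (w_{e,i} + 1)`.  Let `ψ` be a polynomial in
`y_0, ..., y_q` over `K` of the class `Admissible` (for example tempered, or a product of sums of
monomials with roots of unity as coefficients and affinely independent exponents), and let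
`δ ∈ ℤ^(q+1)` be in the interior of the Newton polytope of `ψ`.

There is a constant `C` such that for all algebraic integers `λ` of `K` with `|σ λ| ≥ C` the
following holds for the coordinate ring `A = PRing F (fib psi δ) lam` of the variety
`X : λ Φ(x) = y^{-δ} ψ(y) ≠ 0` of dimension `d + q + 1` in the torus with the coordinates
`x_0, ..., x_d, y_0, ..., y_q`.

The symbols `{u_0, ..., u_d, y_0, ..., y_q}`, where
`u_l = (x^α - ζ_{e,k_l+1}) / (x^α - ζ_{e,0})`, `e = T_l`, `α = α_e`, for all `T = (T_0, ..., T_d)`
with linearly independent characters `α_{T_l}` and `0 ≤ k_l < r_{T_l}`, have unramified images in the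
Milnor K-theory of all fields `L` with a homomorphism `A → L` (for example of the function fields of
the components of `X`).

Let `Ix σ F` be the set of all `(T, k)` with `T_0 < ... < T_d` and linearly independent characters
such that there is a common point `P` in `(ℂ^*)^(d+1)` of the subtori `x^{α_e} = ζ_{e,k_l+1}`,
`e = T_l` (over `σ`), with the property that every other `e`, for which some of the subtori
`x^{α_e} = ζ_{e,i}` contains `P`, can replace some `T_l > e` in the independent system.  There are
`|Ix σ F|` tori of dimension `d + q + 1 = dim X` in the smooth part of the complex points of `X` over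
`σ` such that the determinant of the regulators of the `|Ix σ F|` symbols of the elements of `Ix σ F`
on these tori does not vanish. -/
theorem result.{u, v} {K : Type u} [Field K] [NumberField K] (σ : K →+* ℂ) {d q m : ℕ}
    (F : Arr K d m) (psi : MvPolynomial (Fin (q + 1)) K) (δ : Fin (q + 1) → ℤ)
    (hα : ∀ e, F.al e ≠ 0) (hz : ∀ e i, ∃ n : ℕ, 0 < n ∧ F.z e i ^ n = 1)
    (hinj : ∀ e, Function.Injective (F.z e)) (hg : F.g ≠ 0)
    (hgi : ∀ k, IsIntegral ℤ (F.g.coeff k)) (hpsi : Admissible.{u, v} psi)
    (hin : Interior psi δ) :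
    ∃ C : ℝ, ∀ lam : K, IsIntegral ℤ lam → C ≤ ‖σ lam‖ →
      UnramifiedSymbols.{u, v} F psi δ lam ∧ IndependentRegulators σ F psi δ lam := by
  classical
  have hz0 : ∀ e i, F.z e i ≠ 0 := by
    intro e i h
    obtain ⟨n, hn, h1⟩ := hz e i
    rw [h, zero_pow hn.ne'] at h1
    exact zero_ne_one h1
  have hpsi0 : psi ≠ 0 := by
    rintro rfl
    obtain ⟨s, hs, -⟩ := hin (Pi.single 0 1) (fun h0 => by
      have := congrFun h0 0
      rw [Pi.single_eq_same] at this
      exact one_ne_zero this)
    simp at hs
  have hT := hpsi.isTempered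
  obtain ⟨C, -, hC⟩ := exists_tori (psi := psi) (δ := δ) σ hα hz0 hinj hg hpsi0 hin
  refine ⟨C, fun lam hi hσ => ⟨fun L _ f T k hTd =>
    sym_mem f hz hgi hin (fun f v y h => hT L f v y h) hi hTd k, ?_⟩⟩
  obtain ⟨Γ, h1, h2, h3⟩ := hC lam hσ
  exact ⟨Γ, fun t => ⟨h1 t, h2 t⟩, h3⟩

end Pool.Agent.Results.MP_4a177b_nt.ToricFibrations
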